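import Pool.Agent.HEC.Stmts

/-!
# CON: the connected case
-/

set_option autoImplicit false

open Finset

namespace Pool.Agent.HEC.H84

theorem cnt_le_of_inj {α β : Type} [Fintype α] [Fintype β] (p : α → Prop) (q : β → Prop) (f : α → β)
    (h1 : ∀ a, p a → q (f a)) (h2 : ∀ a b, p a → p b → f a = f b → a = b) : cnt p ≤ cnt q := by
  classical
  unfold cnt
  apply Finset.card_le_card_of_injOn f
  · intro a ha
    simp only [Finset.coe_filter, Finset.mem_univ, true_and, Set.mem_ofPred_eq] at ha ⊢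
    exact h1 a ha
  · intro a ha b hb hab
    simp only [Finset.coe_filter, Finset.mem_univ, true_and, Set.mem_ofPred_eq] at ha hb
    exact h2 a b ha hb hab

theorem cnt_pos {α : Type} [Fintype α] {p : α → Prop} (h : 0 < cnt p) : ∃ a, p a := by
  classical
  unfold cnt at h
  obtain ⟨a, ha⟩ := Finset.card_pos.1 h
  exact ⟨a, (Finset.mem_filter.1 ha).2⟩

theorem cnt_eq_sum {α : Type} [Fintype α] (p : α → Prop) [DecidablePred p] :
    (cnt p : ℤ) = ∑ a, if p a then 1 else 0 := by
  classical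
  unfold cnt
  rw [Finset.card_filter]
  push_cast
  exact Finset.sum_congr rfl fun a _ => by split_ifs <;> rfl

section

variable {V : Type} [Fintype V]

theorem cut_single_le (G : SimpleGraph V) (t : V → Bool) (v : V) (b : Bool)
    (hb : ∀ w, G.Adj v w → t w = b) : cut G {v} ≤ cnt fun w => t w = b := by
  unfold cut
  apply cnt_le_of_inj _ _ (fun p : V × V => p.2)
  · rintro ⟨a, w⟩ ⟨h1, h2, h3⟩
    simp only [Finset.mem_singleton] at h1
    subst h1
    exact hb w h3
  · rintro ⟨a, w⟩ ⟨a', w'⟩ h h' hw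
    simp only [Finset.mem_singleton] at h h'
    simp only at hw
    rw [h.1, h'.1, hw]

theorem bd_parity (S : SimpleGraph V) (f : V → V → ℤ) (hf : Ori S f) (v : V) :
    ∃ j : ℤ, bd f v = dg S v + 2 * j := by
  classical
  have h : (2 : ℤ) ∣ bd f v - dg S v := by
    unfold dg bd
    rw [cnt_eq_sum, ← Finset.sum_sub_distrib]
    apply Finset.dvd_sum
    intro w _
    by_cases hw : S.Adj v w
    · rw [if_pos hw]
      rcases hf.one v w hw with h | h <;> rw [h] <;> norm_num
    · rw [if_neg hw, hf.supp v w hw]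
      norm_num
  obtain ⟨j, hj⟩ := h
  exact ⟨j, by linarith⟩

theorem sum_bd_anti (f : V → V → ℤ) (hf : ∀ u v, f u v = - f v u) : ∑ v, bd f v = 0 := by
  have h : ∑ v, bd f v = - ∑ v, bd f v := by
    conv_lhs => unfold bd
    rw [Finset.sum_comm]
    unfold bd
    rw [← Finset.sum_neg_distrib]
    apply Finset.sum_congr rfl
    intro v _
    rw [← Finset.sum_neg_distrib]
    exact Finset.sum_congr rfl fun w _ => hf w v
  linarith

end

theorem con (h1 : NstStmt) (h2 : CapStmt) (h3 : Tw2Stmt) (h4 : ResStmt) (h5 : PotStmt)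
    (h6 : ReaStmt) : ConStmt := by
  intro V _ G hG
  classical
  by_cases hV : Subsingleton V
  · refine ⟨fun _ _ => 0, ⟨fun _ _ => rfl, fun _ _ _ => rfl, fun _ _ => by norm_num⟩, ?_, ?_, ?_⟩
    · intro u v huv
      exact absurd (Subsingleton.elim u v) huv.ne
    · simp [bd]
    · have : sz (fun _ _ : V => (0 : ℤ)) = 0 := by
        unfold sz cnt
        simp
      rw [this]
      omega
  obtain ⟨N⟩ := h1 V G
  have hH : ∀ W : Finset V, W.Nonempty → W ≠ univ → 10000 ≤ cut N.H W := by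
    intro W hW hW'
    have := hG W hW hW'
    have h := (h2 V G N W).2.2.2.2
    omega
  have hsing : ∀ v : V, ({v} : Finset V) ≠ univ := by
    intro v hv
    apply hV
    constructor
    intro a b
    have ha : a ∈ ({v} : Finset V) := hv ▸ Finset.mem_univ a
    have hb : b ∈ ({v} : Finset V) := hv ▸ Finset.mem_univ b
    rw [Finset.mem_singleton] at ha hb
    rw [ha, hb]
  have hHt : ∀ u v, N.H.Adj u v → N.t1 u ≠ N.t1 v := fun u v h => h.2
  have hside1 : ∀ v : V, 10000 ≤ cnt fun w => N.t1 w = !(N.t1 v) := by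
    intro v
    refine le_trans (hH {v} (Finset.singleton_nonempty v) (hsing v)) ?_
    apply cut_single_le
    intro w hw
    have := hHt v w hw
    cases h : N.t1 v <;> cases h' : N.t1 w <;> simp_all
  have hside : ∀ b : Bool, 136 ≤ cnt fun w => N.t1 w = b := by
    intro b
    have hne : Nonempty V := by
      by_contra hn
      rw [not_nonempty_iff] at hn
      exact hV inferInstance
    obtain ⟨v0⟩ := hne
    by_cases hb : N.t1 v0 = b
    · obtain ⟨w, hw⟩ := cnt_pos (lt_of_lt_of_le (by norm_num) (hside1 v0))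
      have h := hside1 w
      rw [hw, hb, Bool.not_not] at h
      omega
    · have h := hside1 v0
      have hb' : (!(N.t1 v0)) = b := by
        cases h : N.t1 v0 <;> cases b <;> simp_all
      rw [hb'] at h
      omega
  obtain ⟨c, hc1, hc2, hc3⟩ := h4 V N.t1 N.t2 N.t3 N.t4 (fun v => 2 * (dg G v : ℤ) + 9 * dg N.S v)
    (hside true) (hside false)
  obtain ⟨b, x0, hb1, hb2, hx0, hx0b⟩ := h3 V N.H N.t1 10000 (1 / 4000) 18
    (fun v => c v - (2 * (dg G v : ℤ) + 9 * dg N.S v)) hHt (by norm_num)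
    (fun W hW hW' => by exact_mod_cast hH W hW hW') (by norm_num) (by norm_num) hc2 hc3
  have hx0' : RLab N.H (1 / 100) x0 := ⟨hx0.symm, hx0.supp, fun u v =>
    le_trans (hx0.rng u v) (by norm_num)⟩
  obtain ⟨f, hf, hfp⟩ := h5 V N.S (fun v => 2 * (dg G v : ℤ) + b v)
  obtain ⟨x, hx1, hx2, hx3⟩ := h6 V G N f b x0 hf hx0' hx0b
  refine ⟨x, hx1, ?_, ?_, hx3⟩
  · intro u v huv
    rw [hx2 u, hx2 v]
    by_cases hS : N.S.Adj u v
    · intro h
      apply hfp u v hS
      linarith
    · have hne : ¬ (N.t1 u = N.t1 v ∧ N.t2 u = N.t2 v ∧ N.t3 u = N.t3 v ∧ N.t4 u = N.t4 v) := by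
        rintro ⟨e1, e2', e3, e4⟩
        exact hS ⟨⟨⟨⟨huv, e1⟩, e2'⟩, e3⟩, e4⟩
      intro h
      apply hc1 u v hne
      obtain ⟨j, hj⟩ := bd_parity N.S f hf u
      obtain ⟨j', hj'⟩ := bd_parity N.S f hf v
      obtain ⟨k, hk⟩ := hb1 u
      obtain ⟨k', hk'⟩ := hb1 v
      push_cast at hk hk'
      refine ⟨(k' + j') - (k + j), ?_⟩
      rw [hj, hj'] at h
      linarith
  · simp only [hx2]
    rw [Finset.sum_add_distrib, ← Finset.mul_sum, sum_bd_anti f hf.anti, hb2]
    ring

end Pool.Agent.HEC.H84
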