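import Pool.Agent.HEC.Stmts

/-!
# The number of edges of a cut, as a number of edges and as a number of ordered pairs
-/

set_option autoImplicit false

open Finset
open Pool.Agent.Helper51_Equitable (IsEquitableProper)

namespace Pool.Agent.HEC.H84

/-- the number of edges of `G` with one end in `S` and the other end outside `S` -/
noncomputable def cutSize {V : Type} (G : SimpleGraph V) (S : Set V) : ℕ :=
  {e | e ∈ G.edgeSet ∧ ∃ u ∈ S, ∃ v ∉ S, e = s(u, v)}.ncard

theorem cut_eq_aux {V : Type} [Fintype V] (G : SimpleGraph V) (W : Finset V) (P : V × V → Prop)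
    (hP : ∀ u v, P (u, v) ↔ u ∈ W ∧ v ∉ W ∧ G.Adj u v) :
    cnt P = cutSize G (W : Set V) := by
  classical
  unfold cnt cutSize
  have h : {e | e ∈ G.edgeSet ∧ ∃ u ∈ (W : Set V), ∃ v ∉ (W : Set V), e = s(u, v)} =
      (((univ.filter P).image fun p : V × V => s(p.1, p.2) : Finset (Sym2 V)) :
        Set (Sym2 V)) := by
    ext e
    constructor
    · rintro ⟨he, u, hu, v, hv, rfl⟩
      rw [Finset.coe_image]
      refine ⟨(u, v), ?_, rfl⟩
      rw [Finset.mem_coe, Finset.mem_filter]
      exact ⟨Finset.mem_univ _, (hP u v).2 ⟨hu, hv, he⟩⟩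
    · intro he
      rw [Finset.coe_image] at he
      obtain ⟨⟨u, v⟩, hp, rfl⟩ := he
      rw [Finset.mem_coe, Finset.mem_filter] at hp
      obtain ⟨hu, hv, ha⟩ := (hP u v).1 hp.2
      exact ⟨ha, u, hu, v, hv, rfl⟩
  have hinj : Set.InjOn (fun p : V × V => s(p.1, p.2)) ((univ.filter P : Finset (V × V)) :
      Set (V × V)) := by
    rintro ⟨u, v⟩ hp ⟨u', v'⟩ hp' he
    rw [Finset.mem_coe, Finset.mem_filter] at hp hp'
    have h1 := (hP u v).1 hp.2
    have h2 := (hP u' v').1 hp'.2
    rcases Sym2.eq_iff.1 he with ⟨h3, h4⟩ | ⟨h3, h4⟩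
    · exact Prod.ext h3 h4
    · have h5 : u = v' := h3
      rw [h5] at h1
      exact absurd h1.1 h2.2.1
  rw [h, Set.ncard_coe_finset]
  exact (Finset.card_image_of_injOn hinj).symm

/-- the two ways to count agree -/
theorem cut_eq {V : Type} [Fintype V] (G : SimpleGraph V) (W : Finset V) :
    cut G W = cutSize G (W : Set V) :=
  cut_eq_aux G W _ fun _ _ => Iff.rfl

/-- the theorem with `cutSize` -/
theorem main_of_fin (h : FinStmt) (V : Type) [Fintype V] (G : SimpleGraph V)
    (hG : ∀ S : Set V, cutSize G S = 0 ∨ 20000 ≤ cutSize G S) :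
    ∃ ℓ : Sym2 V → ℕ, IsEquitableProper G 3 ℓ :=
  h V G fun W => by
    rw [cut_eq]
    exact hG _

end Pool.Agent.HEC.H84
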