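import Pool.Agent.Helper84_HEC.CONN

/-!
# FIN: the theorem
-/

set_option autoImplicit false

open Finset
open Pool.Agent.Helper51_Equitable (IsEquitableProper)

namespace Pool.Agent.HEC.H84

section

variable {V : Type} [Fintype V]

/-- a symmetric relation without loops has an even number of ordered pairs -/
theorem cnt_symm_even (r : V → V → Prop) (hs : ∀ u v, r u v → r v u) (hl : ∀ v, ¬ r v v) :
    Even (cnt fun p : V × V => r p.1 p.2) := by
  classical
  unfold cnt
  obtain ⟨e⟩ : Nonempty (V ≃ Fin (Fintype.card V)) := ⟨Fintype.equivFin V⟩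
  have h : (univ.filter fun p : V × V => r p.1 p.2) =
      (univ.filter fun p : V × V => r p.1 p.2 ∧ e p.1 < e p.2) ∪
        (univ.filter fun p : V × V => r p.1 p.2 ∧ e p.2 < e p.1) := by
    ext ⟨u, v⟩
    simp only [Finset.mem_filter, Finset.mem_univ, true_and, Finset.mem_union]
    constructor
    · intro h
      rcases lt_trichotomy (e u) (e v) with h' | h' | h'
      · exact Or.inl ⟨h, h'⟩
      · have := e.injective h'
        subst this
        exact absurd h (hl u)
      · exact Or.inr ⟨h, h'⟩
    · rintro (h | h)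
      · exact h.1
      · exact h.1
  rw [h, Finset.card_union_of_disjoint]
  · have h2 : (univ.filter fun p : V × V => r p.1 p.2 ∧ e p.2 < e p.1).card =
        (univ.filter fun p : V × V => r p.1 p.2 ∧ e p.1 < e p.2).card := by
      apply Finset.card_bij (fun p _ => (p.2, p.1))
      · rintro ⟨u, v⟩ hp
        simp only [Finset.mem_filter, Finset.mem_univ, true_and] at hp ⊢
        exact ⟨hs _ _ hp.1, hp.2⟩
      · rintro ⟨u, v⟩ _ ⟨u', v'⟩ _ h
        simp only [Prod.mk.injEq] at h
        exact Prod.ext h.2 h.1
      · rintro ⟨u, v⟩ hp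
        simp only [Finset.mem_filter, Finset.mem_univ, true_and] at hp
        exact ⟨(v, u), by
          simp only [Finset.mem_filter, Finset.mem_univ, true_and]
          exact ⟨hs _ _ hp.1, hp.2⟩, rfl⟩
    rw [h2]
    exact Even.add_self _
  · rw [Finset.disjoint_left]
    rintro ⟨u, v⟩ h1 h2
    simp only [Finset.mem_filter, Finset.mem_univ, true_and] at h1 h2
    exact absurd h1.2 (not_lt.2 h2.2.le)

theorem e2_even (G : SimpleGraph V) : Even (e2 G) :=
  cnt_symm_even G.Adj (fun _ _ h => h.symm) (fun v h => G.loopless.irrefl v h)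

/-- disjoint union -/
theorem cnt_or {α : Type} [Fintype α] (p q : α → Prop) (h : ∀ a, p a → ¬ q a) :
    cnt (fun a => p a ∨ q a) = cnt p + cnt q := by
  classical
  unfold cnt
  rw [← Finset.card_union_of_disjoint]
  · congr 1
    ext a
    simp
  · rw [Finset.disjoint_left]
    intro a h1 h2
    simp only [Finset.mem_filter, Finset.mem_univ, true_and] at h1 h2
    exact h a h1 h2

theorem cnt_congr {α : Type} [Fintype α] {p q : α → Prop} (h : ∀ a, p a ↔ q a) : cnt p = cnt q := by
  have : p = q := funext fun a => propext (h a)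
  rw [this]

/-- numbers of pairs with value `1` and `-1` agree if the total is zero -/
theorem sz_eq (G : SimpleGraph V) (x : V → V → ℤ) (hx : Lab G x) (h0 : ∑ v, bd x v = 0) :
    sz x = 2 * cnt (fun p : V × V => x p.1 p.2 = 1) ∧ Even (cnt fun p : V × V => x p.1 p.2 = 1) := by
  classical
  constructor
  · have h1 : sz x = cnt (fun p : V × V => x p.1 p.2 = 1) + cnt (fun p : V × V => x p.1 p.2 = -1) := by
      unfold sz
      rw [← cnt_or]
      · apply cnt_congr
        intro p
        have := hx.rng p.1 p.2
        omega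
      · intro p hp hq
        omega
    have h2 : (cnt (fun p : V × V => x p.1 p.2 = 1) : ℤ) - cnt (fun p : V × V => x p.1 p.2 = -1) =
        ∑ v, bd x v := by
      rw [cnt_eq_sum, cnt_eq_sum, ← Finset.sum_sub_distrib]
      unfold bd
      rw [← Finset.univ_product_univ, Finset.sum_product]
      apply Finset.sum_congr rfl
      intro u _
      apply Finset.sum_congr rfl
      intro v _
      have := hx.rng u v
      simp only
      split_ifs <;> omega
    rw [h0] at h2
    omega
  · apply cnt_symm_even (fun u v => x u v = 1)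
    · intro u v h
      rw [hx.symm]
      exact h
    · intro v h
      rw [hx.supp v v (G.loopless.irrefl v)] at h
      omega

theorem e2_zer (G : SimpleGraph V) (x : V → V → ℤ) (hx : Lab G x) : e2 G = sz x + e2 (zer G x) := by
  unfold e2 sz
  rw [← cnt_or]
  · apply cnt_congr
    intro p
    constructor
    · intro h
      by_cases h' : x p.1 p.2 = 0
      · exact Or.inr ⟨h, h', by rw [hx.symm]; exact h'⟩
      · exact Or.inl h'
    · rintro (h | h)
      · by_contra hn
        exact h (hx.supp _ _ hn)
      · exact h.1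
  · intro p h h'
    exact h h'.2.1

theorem sz_add (G : SimpleGraph V) (x y : V → V → ℤ) (hy : Lab (zer G x) y) :
    sz (fun u v => x u v + y u v) = sz x + sz y := by
  unfold sz
  rw [← cnt_or]
  · apply cnt_congr
    intro p
    change x p.1 p.2 + y p.1 p.2 ≠ 0 ↔ x p.1 p.2 ≠ 0 ∨ y p.1 p.2 ≠ 0
    by_cases h : y p.1 p.2 = 0
    · constructor
      · intro h'
        left
        omega
      · rintro (h' | h') <;> omega
    · have h1 : (zer G x).Adj p.1 p.2 := by
        by_contra hn
        exact h (hy.supp _ _ hn)
      have h2 := h1.2.1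
      constructor
      · intro h'
        exact Or.inr h
      · intro h'
        omega
  · intro p h h'
    have h1 : (zer G x).Adj p.1 p.2 := by
      by_contra hn
      exact h' (hy.supp _ _ hn)
    exact h h1.2.1

theorem dg_eq_cut (G : SimpleGraph V) (v : V) : dg G v = cut G {v} := by
  classical
  apply le_antisymm
  · unfold dg cut
    apply cnt_le_of_inj _ _ (fun w => (v, w))
    · intro w hw
      refine ⟨Finset.mem_singleton_self v, ?_, hw⟩
      rw [Finset.mem_singleton]
      exact hw.ne'
    · intro a b _ _ h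
      exact (Prod.mk.inj h).2
  · unfold dg cut
    apply cnt_le_of_inj _ _ (fun p : V × V => p.2)
    · rintro ⟨a, w⟩ ⟨h1, h2, h3⟩
      simp only [Finset.mem_singleton] at h1
      subst h1
      exact h3
    · rintro ⟨a, w⟩ ⟨a', w'⟩ h h' hw
      simp only [Finset.mem_singleton] at h h'
      simp only at hw
      rw [h.1, h'.1, hw]

theorem e2_eq_sum (G : SimpleGraph V) : e2 G = ∑ v, dg G v := by
  classical
  have h : (e2 G : ℤ) = ∑ v, (dg G v : ℤ) := by
    unfold e2 dg
    simp only [cnt_eq_sum]
    rw [← Finset.univ_product_univ, Finset.sum_product]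
  exact_mod_cast h

end

theorem fin (h1 : UniStmt) (h2 : ExaStmt) (h3 : NumStmt) (h4 : Fn1Stmt) : FinStmt := by
  intro V _ G hG
  classical
  obtain ⟨x, hx⟩ := h1 V G hG
  obtain ⟨m, hm⟩ := e2_even G
  have hm' : e2 G = 2 * m := by omega
  obtain ⟨hsz, hev⟩ := sz_eq G x hx.lab hx.tot
  obtain ⟨a, ha⟩ := hev
  have hz := e2_zer G x hx.lab
  obtain ⟨N0, hN0⟩ := e2_even (zer G x)
  have hfew := hx.few
  rcases Nat.eq_zero_or_pos m with hm0 | hmpos
  · refine h4 V G x m 0 hx.lab hx.proper hx.tot hm' ?_ ?_
    · omega
    · omega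
  set U : Finset V := univ.filter fun v => 0 < dg G v with hU
  have hdeg : ∀ v ∈ U, 20000 ≤ dg G v := by
    intro v hv
    have hv' := (Finset.mem_filter.1 hv).2
    rw [dg_eq_cut] at hv' ⊢
    rcases hG {v} with h | h
    · omega
    · exact h
  have hadj : ∀ u v, G.Adj u v → u ∈ U := by
    intro u v huv
    rw [hU, Finset.mem_filter]
    refine ⟨Finset.mem_univ u, ?_⟩
    unfold dg cnt
    exact Finset.card_pos.2 ⟨v, by simpa using huv⟩
  have hsum : e2 G = ∑ v ∈ U, dg G v := by
    rw [e2_eq_sum, hU, Finset.sum_filter]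
    apply Finset.sum_congr rfl
    intro v _
    split_ifs with h
    · rfl
    · omega
  have hUne : U.Nonempty := by
    rw [Finset.nonempty_iff_ne_empty]
    intro h
    rw [h, Finset.sum_empty] at hsum
    omega
  obtain ⟨v0, hv0⟩ := hUne
  have hn : 20001 ≤ U.card := by
    have h := hdeg v0 hv0
    have h' : dg G v0 + 1 ≤ U.card := by
      have : (univ.filter fun w => G.Adj v0 w) ⊆ U.erase v0 := by
        intro w hw
        have hw' := (Finset.mem_filter.1 hw).2
        rw [Finset.mem_erase]
        exact ⟨hw'.ne', hadj w v0 hw'.symm⟩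
      have hc := Finset.card_le_card this
      rw [Finset.card_erase_of_mem hv0] at hc
      have hpos : 0 < U.card := Finset.card_pos.2 ⟨v0, hv0⟩
      unfold dg cnt
      omega
    omega
  have hmn : 20000 * U.card ≤ e2 G := by
    rw [hsum]
    have := Finset.card_nsmul_le_sum U (fun v => dg G v) 20000 hdeg
    simpa [mul_comm] using this
  obtain ⟨hnum1, hnum2⟩ := h3 U.card hn
  set L := len U.card with hL
  set z := m - 2 * ((m + 1) / 3) with hzdef
  have hz1 : z + 2 * ((m + 1) / 3) = m := by omega
  have hD0 : z ≤ N0 := by omega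
  obtain ⟨D, hD⟩ : ∃ D, N0 = z + D := ⟨N0 - z, by omega⟩
  have hDeven : Even D := by
    rw [Nat.even_iff]
    omega
  obtain ⟨y, hy1, hy2, hy3⟩ := h2 V (zer G x) U D L (fun u v h => hadj u v h.1) ⟨v0, hv0⟩ hL hDeven
    (by omega) (by omega)
  refine h4 V G (fun u v => x u v + y u v) m z ?_ ?_ ?_ hm' ?_ hz1
  · refine ⟨fun u v => by rw [hx.lab.symm u v, hy1.symm u v], ?_, ?_⟩
    · intro u v huv
      rw [hx.lab.supp u v huv, hy1.supp u v (fun h => huv h.1)]
      norm_num
    · intro u v
      by_cases h : (zer G x).Adj u v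
      · rw [h.2.1]
        have := hy1.rng u v
        constructor <;> linarith [this.1, this.2]
      · rw [hy1.supp u v h]
        have := hx.lab.rng u v
        constructor <;> linarith [this.1, this.2]
  · intro u v huv
    have hb : ∀ w, bd (fun u v => x u v + y u v) w = bd x w := by
      intro w
      have : bd (fun u v => x u v + y u v) w = bd x w + bd y w := by
        unfold bd
        rw [← Finset.sum_add_distrib]
      rw [this, hy2 w, add_zero]
    rw [hb u, hb v]
    exact hx.proper u v huv
  · have hb : ∀ w, bd (fun u v => x u v + y u v) w = bd x w := by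
      intro w
      have : bd (fun u v => x u v + y u v) w = bd x w + bd y w := by
        unfold bd
        rw [← Finset.sum_add_distrib]
      rw [this, hy2 w, add_zero]
    rw [Finset.sum_congr rfl fun w _ => hb w]
    exact hx.tot
  · rw [sz_add G x y hy1]
    omega

end Pool.Agent.HEC.H84
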