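import Pool.Agent.Helper64_HEC.MCT
import Pool.Agent.Helper32_HEC.NST
import Pool.Agent.Helper50_HEC.CAP
import Pool.Agent.Helper5_HEC.CNT
import Pool.Agent.Helper33_HEC.FLO
import Pool.Agent.Helper65_HEC.RND
import Pool.Agent.Helper7_HEC.SGN
import Pool.Agent.Helper42_HEC.MST
import Pool.Agent.Helper41_HEC.RK1
import Pool.Agent.Helper41_HEC.DLB
import Pool.Agent.Helper36_HEC.MIN
import Pool.Agent.Helper67_HEC.CST
import Pool.Agent.Helper81_HEC.THA
import Pool.Agent.Helper82_HEC.TWO
import Pool.Agent.Helper94_HEC.TW2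
import Pool.Agent.Helper41_HEC.RES
import Pool.Agent.Helper55_HEC.POT
import Pool.Agent.Helper59_HEC.REA
import Pool.Agent.Helper84_HEC.CONN
import Pool.Agent.Helper81_HEC.UNI
import Pool.Agent.Helper42_HEC.Exa
import Pool.Agent.Helper3_HEC.EXA
import Pool.Agent.Helper53_HEC.NUM
import Pool.Agent.Helper55_HEC.FN1
import Pool.Agent.Helper84_HEC.FIN
import Pool.Agent.Helper84_HEC.CUTS

/-!
# Assembly of the rows of squad HEC
-/

namespace Pool.Agent.HEC.H84

theorem all_mct : MctStmt := H64.mct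
theorem all_cap : CapStmt := H50.cap
theorem all_cnt : CntStmt := H5.cnt_row
theorem all_min : MinStmt := H36.min H42.mst (H41.dlb H41.rk1) H41.rk1
theorem all_tha : ThaStmt := H81.tha all_min H67.cst
theorem all_tw2 : Tw2Stmt := H94.tw2 (H82.two all_tha)
theorem all_rea : ReaStmt := H59.rea all_cap all_cnt H33.flo H65.rnd H7.sgn
theorem all_con : ConStmt :=
  con (H32.nst all_mct) all_cap all_tw2 H41.res_row H55.pot all_rea
theorem all_exa : ExaStmt := H3.exa H42.altExa
theorem all_fin : FinStmt := fin (H81.uni all_con) all_exa H53.num H55.fn1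

end Pool.Agent.HEC.H84
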